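import Pool.Agent.H32.SAB.Targets
/-!
# The theorem of Springer on quadratic forms and extensions of odd degree (row PSPR)
-/

set_option autoImplicit false
open Polynomial Matrix Pool.Agent.H32.SAB
namespace Pool.Agent.H52.SAB

theorem qv_map {R S : Type*} [CommRing R] [CommRing S] (f : R →+* S) {n : ℕ} (A : Matrix (Fin n) (Fin n) R)
    (x : Fin n → R) : qv (A.map f) (fun i => f (x i)) = f (qv A x) := by
  simp [qv, map_sum, map_mul]

theorem qv_smul {R : Type*} [CommRing R] {n : ℕ} (A : Matrix (Fin n) (Fin n) R)
    (x : Fin n → R) (f : R) : qv A (fun i => f * x i) = f ^ 2 * qv A x := by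
  simp only [qv, Finset.mul_sum]
  refine Finset.sum_congr rfl fun i _ => Finset.sum_congr rfl fun j _ => ?_
  ring

/-- a polynomial of odd degree has an irreducible factor of odd degree -/
theorem odd_factor {F : Type} [Field F] (d : ℕ) : ∀ h : F[X], h.natDegree = d → Odd d →
    ∃ p : F[X], Irreducible p ∧ p ∣ h ∧ Odd p.natDegree := by
  induction d using Nat.strong_induction_on with
  | _ d ih =>
    intro h hd hodd
    have hd0 : 0 < d := hodd.pos
    have h0 : h ≠ 0 := by
      rintro rfl
      rw [natDegree_zero] at hd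
      omega
    have hu : ¬ IsUnit h := by
      intro hu
      have := natDegree_eq_zero_of_isUnit hu
      omega
    obtain ⟨f, hf, g, hg⟩ := WfDvdMonoid.exists_irreducible_factor hu h0
    rcases Nat.even_or_odd f.natDegree with he | ho
    · have hf0 : f ≠ 0 := hf.ne_zero
      have hg0 : g ≠ 0 := by
        rintro rfl
        rw [mul_zero] at hg
        exact h0 hg
      have hdeg : d = f.natDegree + g.natDegree := by rw [← hd, hg, natDegree_mul hf0 hg0]
      have hfp : 0 < f.natDegree := hf.natDegree_pos
      have hgo : Odd g.natDegree := by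
        rw [hdeg] at hodd
        exact (Nat.odd_add'.mp hodd).mpr he
      obtain ⟨p, hp, hpg, hpo⟩ := ih g.natDegree (by omega) g rfl hgo
      exact ⟨p, hp, hpg.trans ⟨f, by rw [hg, mul_comm]⟩, hpo⟩
    · exact ⟨f, hf, ⟨g, hg⟩, ho⟩

/-- the maximum of the degrees -/
def md {F : Type} [Field F] {n : ℕ} (v : Fin n → F[X]) : ℕ := Finset.univ.sup fun i => (v i).natDegree

theorem le_md {F : Type} [Field F] {n : ℕ} (v : Fin n → F[X]) (i : Fin n) : (v i).natDegree ≤ md v :=
  Finset.le_sup (f := fun i => (v i).natDegree) (Finset.mem_univ i)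

theorem md_coeff {F : Type} [Field F] {n : ℕ} (v : Fin n → F[X]) (hv : v ≠ 0) :
    (fun i => (v i).coeff (md v)) ≠ 0 := by
  intro h
  obtain ⟨i, hi⟩ := Function.ne_iff.mp hv
  have hi' : v i ≠ 0 := hi
  have h1 : ∀ j, v j ≠ 0 → (v j).natDegree < md v := by
    intro j hj
    refine lt_of_le_of_ne (le_md v j) fun he => ?_
    have := congrFun h j
    simp only [← he, Pi.zero_apply] at this
    exact hj (leadingCoeff_eq_zero.mp this)
  have h2 : 0 < md v := lt_of_le_of_lt (Nat.zero_le _) (h1 i hi')
  have h3 : md v < md v := by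
    have : ∀ j ∈ (Finset.univ : Finset (Fin n)), (v j).natDegree < md v := by
      intro j _
      by_cases hj : v j = 0
      · rw [hj, natDegree_zero]; exact h2
      · exact h1 j hj
    exact (Finset.sup_lt_iff h2).mpr this
  exact lt_irrefl _ h3

theorem springer {F : Type} [Field F] {n : ℕ} (A : Matrix (Fin n) (Fin n) F)
    (hA : ∀ x : Fin n → F, qv A x = 0 → x = 0) (d : ℕ) : ∀ p : F[X], p.natDegree = d → Irreducible p → Odd d →
    ¬ IsoM A (AdjoinRoot p) := by
  induction d using Nat.strong_induction_on with
  | _ d ih =>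
    intro p hd hp hodd hiso
    have hd0 : 0 < d := hodd.pos
    have hp0 : p ≠ 0 := hp.ne_zero
    -- lifting
    have hex : ∃ m : ℕ, ∃ v : Fin n → F[X], md v = m ∧ v ≠ 0 ∧ (∀ i, (v i).degree < p.degree) ∧
        p ∣ qv (A.map C) v := by
      obtain ⟨x, hx, hq⟩ := hiso
      have hl : ∀ i, ∃ f : F[X], AdjoinRoot.mk p f = x i ∧ f.degree < p.degree := by
        intro i
        obtain ⟨f, hf⟩ := AdjoinRoot.mk_surjective (x i)
        refine ⟨f % p, ?_, EuclideanDomain.mod_lt f hp0⟩
        rw [← hf, AdjoinRoot.mk_eq_mk]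
        refine ⟨-(f / p), ?_⟩
        have := EuclideanDomain.div_add_mod f p
        linear_combination this
      choose v hv hvd using hl
      refine ⟨_, v, rfl, ?_, hvd, ?_⟩
      · intro h0
        apply hx
        funext i
        rw [← hv i, h0]
        simp
      · rw [← AdjoinRoot.mk_eq_zero, ← qv_map (AdjoinRoot.mk p)]
        have e1 : (A.map C).map (AdjoinRoot.mk p) = A.map (algebraMap F (AdjoinRoot p)) := by
          ext i j
          simp only [Matrix.map_apply]
          rfl
        rw [e1]
        simp_rw [hv]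
        exact hq
    classical
    obtain ⟨v, hm, hv0, hvd, hdiv⟩ := Nat.find_spec hex
    have hmin : ∀ m < Nat.find hex, ¬ ∃ v : Fin n → F[X], md v = m ∧ v ≠ 0 ∧ (∀ i, (v i).degree < p.degree) ∧
        p ∣ qv (A.map C) v := fun m hm => Nat.find_min hex hm
    rw [← hm] at hmin
    -- no common irreducible factor
    have hcop : ∀ f : F[X], Irreducible f → ¬ ∀ i, f ∣ v i := by
      intro f hf hall
      choose u hu using hall
      have hf0 : f ≠ 0 := hf.ne_zero
      have hvu : v = fun i => f * u i := funext hu
      obtain ⟨i0, hi0⟩ := Function.ne_iff.mp hv0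
      have hi0' : v i0 ≠ 0 := hi0
      have hui : u i0 ≠ 0 := by
        intro h
        apply hi0'
        rw [hu, h, mul_zero]
      have hfd : f.degree < p.degree := by
        refine lt_of_le_of_lt ?_ (hvd i0)
        exact degree_le_of_dvd ⟨u i0, hu i0⟩ hi0'
      have hpf : ¬ p ∣ f := fun h => absurd (degree_le_of_dvd h hf0) (not_le.mpr hfd)
      have hpu : p ∣ qv (A.map C) u := by
        rw [hvu, qv_smul] at hdiv
        rcases hp.prime.dvd_or_dvd hdiv with h | h
        · exact absurd (hp.prime.dvd_of_dvd_pow h) hpf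
        · exact h
      have hfp : 0 < f.natDegree := hf.natDegree_pos
      have hnd : ∀ i, u i ≠ 0 → (u i).natDegree < md v := by
        intro i hi
        have h1 := le_md v i
        rw [hu i, natDegree_mul hf0 hi] at h1
        omega
      have h2 : 0 < md v := lt_of_le_of_lt (Nat.zero_le _) (hnd i0 hui)
      have h3 : md u < md v := by
        refine (Finset.sup_lt_iff h2).mpr fun j _ => ?_
        by_cases hj : u j = 0
        · rw [hj, natDegree_zero]; exact h2
        · exact hnd j hj
      refine hmin _ h3 ⟨u, rfl, ?_, ?_, hpu⟩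
      · intro h0
        apply hui
        rw [h0]; rfl
      · intro i
        by_cases hi : u i = 0
        · rw [hi, degree_zero]
          exact bot_lt_iff_ne_bot.mpr (by rw [Ne, degree_eq_bot]; exact hp0)
        · refine lt_of_le_of_lt (degree_le_of_dvd ⟨f, by rw [mul_comm]; exact hu i⟩ ?_) (hvd i)
          rw [hu i]
          exact mul_ne_zero hf0 hi
    -- the degree of the value
    set m := md v with hmdef
    set w : Fin n → F := fun i => (v i).coeff m with hw
    have hw0 : w ≠ 0 := md_coeff v hv0
    have hcoef : (qv (A.map C) v).coeff (m + m) = qv A w := by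
      simp only [qv, finsetSum_coeff, Matrix.map_apply]
      refine Finset.sum_congr rfl fun i _ => Finset.sum_congr rfl fun j _ => ?_
      rw [mul_assoc, coeff_C_mul, coeff_mul_add_eq_of_natDegree_le (le_md v i) (le_md v j), mul_assoc]
    have hqw : qv A w ≠ 0 := fun h => hw0 (hA w h)
    have hdeg1 : (qv (A.map C) v).natDegree ≤ m + m := by
      refine natDegree_sum_le_of_forall_le _ _ fun i _ => natDegree_sum_le_of_forall_le _ _ fun j _ => ?_
      rw [Matrix.map_apply, mul_assoc]
      refine (natDegree_C_mul_le _ _).trans (natDegree_mul_le.trans ?_)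
      exact add_le_add (le_md v i) (le_md v j)
    have hdeg2 : (qv (A.map C) v).natDegree = m + m := by
      refine le_antisymm hdeg1 (le_natDegree_of_ne_zero ?_)
      rw [hcoef]; exact hqw
    have hq0 : qv (A.map C) v ≠ 0 := by
      intro h0
      rw [h0, coeff_zero] at hcoef
      exact hqw hcoef.symm
    obtain ⟨h, hh⟩ := hdiv
    have hh0 : h ≠ 0 := by
      rintro rfl
      rw [mul_zero] at hh
      exact hq0 hh
    have hsum : d + h.natDegree = m + m := by
      rw [← hd, ← natDegree_mul hp0 hh0, ← hh, hdeg2]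
    have hmd : m < d := by
      rw [hmdef]
      refine (Finset.sup_lt_iff hd0).mpr fun j _ => ?_
      rw [← hd]
      by_cases hj : v j = 0
      · rw [hj, natDegree_zero, hd]; exact hd0
      · exact natDegree_lt_natDegree hj (hvd j)
    have hho : Odd h.natDegree := by
      obtain ⟨c, hc⟩ := hodd
      exact ⟨m - c - 1, by omega⟩
    obtain ⟨p', hp', hp'h, hp'o⟩ := odd_factor _ h rfl hho
    have hp'd : p'.natDegree ≤ h.natDegree := natDegree_le_of_dvd hp'h hh0
    refine ih p'.natDegree (by omega) p' rfl hp' hp'o ⟨fun i => AdjoinRoot.mk p' (v i), ?_, ?_⟩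
    · intro h0
      refine hcop p' hp' fun i => ?_
      rw [← AdjoinRoot.mk_eq_zero]
      exact congrFun h0 i
    · have e1 : (A.map C).map (AdjoinRoot.mk p') = A.map (algebraMap F (AdjoinRoot p')) := by
        ext i j
        simp only [Matrix.map_apply]
        rfl
      rw [← e1, qv_map (AdjoinRoot.mk p'), AdjoinRoot.mk_eq_zero, hh]
      exact hp'h.trans (Dvd.intro_left p rfl)

theorem pf_SPR : T_SPR := by
  intro F _ n A p hp hodd hiso
  by_contra hcon
  refine springer A ?_ p.natDegree p rfl hp hodd hiso
  intro x hx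
  by_contra hx0
  refine hcon ⟨x, hx0, ?_⟩
  have e : A.map (algebraMap F F) = A := by
    ext i j
    simp
  rw [e]
  exact hx

end Pool.Agent.H52.SAB
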